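import Mathlib

/-!
Cohen's factorisation for one element and a sequence of commuting approximate units
(row for MP_c2df89_an).
-/

namespace Pool.Agent.H69.C2

open Filter Topology

/-- the step of the construction -/
theorem cohen_step {A : Type*} [NormedRing A] [NormedAlgebra ℂ A] [CompleteSpace A]
    (e : ℕ → A) (hM : ∀ n, ‖e n‖ ≤ 2)
    (hcomm : ∀ m n, e m * e n = e n * e m)
    (hee : ∀ m, Tendsto (fun n => e m * e n) atTop (𝓝 (e m)))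
    (x : A) (hx : Tendsto (fun n => x * e n) atTop (𝓝 x)) (n : ℕ) (v : Aˣ)
    (hv1 : ∀ k, (v : A) * e k = e k * (v : A))
    (hv2 : Tendsto (fun k => ((v : A) - ((3 / 4 : ℂ) ^ n) • (1 : A)) * e k) atTop
      (𝓝 ((v : A) - ((3 / 4 : ℂ) ^ n) • (1 : A))))
    (hv3 : (v : A) - ((3 / 4 : ℂ) ^ n) • (1 : A) ∈ Submodule.span ℂ (Set.range e)) :
    ∃ v' : Aˣ, (∀ k, (v' : A) * e k = e k * (v' : A)) ∧
      Tendsto (fun k => ((v' : A) - ((3 / 4 : ℂ) ^ (n + 1)) • (1 : A)) * e k) atTop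
        (𝓝 ((v' : A) - ((3 / 4 : ℂ) ^ (n + 1)) • (1 : A))) ∧
      (v' : A) - ((3 / 4 : ℂ) ^ (n + 1)) • (1 : A) ∈ Submodule.span ℂ (Set.range e) ∧
      ‖(v' : A) - v‖ ≤ (3 / 4) ^ n * (1 / 4 * (2 + ‖(1 : A)‖)) ∧
      ‖x * ((v'⁻¹ : Aˣ) : A) - x * ((v⁻¹ : Aˣ) : A)‖ ≤ (1 / 2) ^ n := by
  classical
  obtain ⟨s, hs⟩ : ∃ s : A, s = (v : A) - ((3 / 4 : ℂ) ^ n) • (1 : A) := ⟨_, rfl⟩
  rw [← hs] at hv2 hv3
  obtain ⟨W, hW⟩ : ∃ W : A, W = ((v⁻¹ : Aˣ) : A) := ⟨_, rfl⟩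
  have hWv : W * (v : A) = 1 := by rw [hW]; exact v.inv_mul
  have hvW : (v : A) * W = 1 := by rw [hW]; exact v.mul_inv
  have hWe : ∀ k, W * e k = e k * W := by
    intro k
    calc W * e k = W * e k * ((v : A) * W) := by rw [hvW, mul_one]
      _ = W * (e k * (v : A)) * W := by simp only [mul_assoc]
      _ = W * ((v : A) * e k) * W := by rw [hv1 k]
      _ = (W * (v : A)) * e k * W := by simp only [mul_assoc]
      _ = e k * W := by rw [hWv, one_mul]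
  obtain ⟨O, hO⟩ : ∃ O : ℝ, O = ‖(1 : A)‖ := ⟨_, rfl⟩
  have hO0 : 0 ≤ O := by rw [hO]; exact norm_nonneg _
  have hW0 : 0 ≤ ‖W‖ := norm_nonneg _
  obtain ⟨L, hL⟩ : ∃ L : ℝ, L = 4 / 3 * (O + 2) := ⟨_, rfl⟩
  have hL0 : 0 < L := by rw [hL]; positivity
  obtain ⟨B, hB⟩ : ∃ B : ℝ, B = (O + 1) * (L * ‖W‖) := ⟨_, rfl⟩
  have hB0 : 0 ≤ B := by rw [hB]; positivity
  -- the choice of the unit
  have hd : Tendsto (fun k => ‖s - s * e k‖) atTop (𝓝 0) := by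
    have h1 : Tendsto (fun k => ‖s - s * e k‖) atTop (𝓝 ‖s - s‖) := (hv2.const_sub s).norm
    simpa using h1
  have hxd : Tendsto (fun k => ‖x - x * e k‖) atTop (𝓝 0) := by
    have h1 : Tendsto (fun k => ‖x - x * e k‖) atTop (𝓝 ‖x - x‖) := (hx.const_sub x).norm
    simpa using h1
  have hd1 : ∀ᶠ k in atTop, ‖s - s * e k‖ < 1 / (2 * (L * ‖W‖ + 1)) :=
    hd.eventually_lt_const (by positivity)
  have hxd1 : ∀ᶠ k in atTop, ‖x - x * e k‖ < (1 / 2) ^ n / (‖W‖ * B + 1) :=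
    hxd.eventually_lt_const (by positivity)
  obtain ⟨m, hm1, hm2⟩ := (hd1.and hxd1).exists
  -- the units
  have ht : ‖(-(1 / 3 : ℂ)) • e m‖ < 1 := by
    rw [norm_smul, norm_neg]
    have h1 : ‖(1 / 3 : ℂ)‖ = 1 / 3 := by norm_num
    rw [h1]
    have := hM m
    linarith
  have ht' : ‖(-(1 / 3 : ℂ)) • e m‖ ≤ 2 / 3 := by
    rw [norm_smul, norm_neg]
    have h1 : ‖(1 / 3 : ℂ)‖ = 1 / 3 := by norm_num
    rw [h1]
    have := hM m
    linarith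
  obtain ⟨p, hp1, hp2⟩ : ∃ p : A, (1 + (1 / 3 : ℂ) • e m) * p = 1 ∧
      p * (1 + (1 / 3 : ℂ) • e m) = 1 ∧ ‖p‖ ≤ O + 2 := by
    have hq : (1 : A) + (1 / 3 : ℂ) • e m = 1 - (-(1 / 3 : ℂ)) • e m := by
      rw [neg_smul, sub_neg_eq_add]
    refine ⟨(((Units.oneSub _ ht)⁻¹ : Aˣ) : A), ?_, ?_, ?_⟩
    · rw [hq]
      exact (Units.oneSub _ ht).mul_inv
    · rw [hq]
      exact (Units.oneSub _ ht).inv_mul
    · have h1 : (((Units.oneSub _ ht)⁻¹ : Aˣ) : A) = ∑' k : ℕ, ((-(1 / 3 : ℂ)) • e m) ^ k :=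
        rfl
      rw [h1]
      refine (tsum_geometric_le_of_norm_lt_one _ ht).trans ?_
      rw [← hO]
      have h2 : (1 - ‖(-(1 / 3 : ℂ)) • e m‖)⁻¹ ≤ (1 / 3)⁻¹ :=
        inv_anti₀ (by norm_num) (by linarith)
      have h3 : ((1 : ℝ) / 3)⁻¹ = 3 := by norm_num
      linarith
  obtain ⟨hp2, hp3⟩ := hp2
  -- the unit w
  obtain ⟨w, hw⟩ : ∃ w : Aˣ, (w : A) = (3 / 4 : ℂ) • (1 : A) + (1 / 4 : ℂ) • e m ∧
      ‖((w⁻¹ : Aˣ) : A)‖ ≤ L := by
    have h34 : (3 / 4 : ℂ) • (1 : A) + (1 / 4 : ℂ) • e m =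
        (3 / 4 : ℂ) • (1 + (1 / 3 : ℂ) • e m) := by
      rw [smul_add, smul_smul]
      norm_num
    refine ⟨⟨(3 / 4 : ℂ) • (1 : A) + (1 / 4 : ℂ) • e m, (4 / 3 : ℂ) • p, ?_, ?_⟩, rfl, ?_⟩
    · rw [h34, smul_mul_smul_comm, hp1]
      norm_num
    · rw [h34, smul_mul_smul_comm, hp2]
      norm_num
    · show ‖(4 / 3 : ℂ) • p‖ ≤ L
      rw [norm_smul, hL]
      have h1 : ‖(4 / 3 : ℂ)‖ = 4 / 3 := by norm_num
      rw [h1]
      linarith
  obtain ⟨hw1, hw2⟩ := hw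
  obtain ⟨d, hdd⟩ : ∃ d : A, d = (1 / 4 : ℂ) • (s - s * e m) := ⟨_, rfl⟩
  have hdn : ‖d‖ ≤ ‖s - s * e m‖ := by
    rw [hdd, norm_smul]
    have h1 : ‖(1 / 4 : ℂ)‖ = 1 / 4 := by norm_num
    rw [h1]
    have := norm_nonneg (s - s * e m)
    linarith
  have ht2 : ‖-(((w⁻¹ : Aˣ) : A) * (W * d))‖ ≤ 1 / 2 := by
    rw [norm_neg]
    have h1 : ‖((w⁻¹ : Aˣ) : A) * (W * d)‖ ≤ L * (‖W‖ * ‖d‖) := by
      refine (norm_mul_le _ _).trans ?_
      exact mul_le_mul hw2 (norm_mul_le _ _) (norm_nonneg _) hL0.le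
    have h2 : L * (‖W‖ * ‖d‖) ≤ (L * ‖W‖ + 1) * (1 / (2 * (L * ‖W‖ + 1))) := by
      have h3 : ‖d‖ ≤ 1 / (2 * (L * ‖W‖ + 1)) := hdn.trans hm1.le
      calc L * (‖W‖ * ‖d‖) = (L * ‖W‖) * ‖d‖ := by ring
        _ ≤ (L * ‖W‖ + 1) * (1 / (2 * (L * ‖W‖ + 1))) := by
          refine mul_le_mul (by linarith) h3 (norm_nonneg _) (by positivity)
    have h4 : (L * ‖W‖ + 1) * (1 / (2 * (L * ‖W‖ + 1))) = 1 / 2 := by
      have : L * ‖W‖ + 1 ≠ 0 := by positivity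
      field_simp
    linarith
  have ht3 : ‖-(((w⁻¹ : Aˣ) : A) * (W * d))‖ < 1 := by linarith
  obtain ⟨q, hq1, hq2⟩ : ∃ q : Aˣ, (q : A) = 1 + ((w⁻¹ : Aˣ) : A) * (W * d) ∧
      ‖((q⁻¹ : Aˣ) : A)‖ ≤ O + 1 := by
    refine ⟨Units.oneSub _ ht3, ?_, ?_⟩
    · rw [Units.val_oneSub, sub_neg_eq_add]
    · have h1 : (((Units.oneSub _ ht3)⁻¹ : Aˣ) : A) =
          ∑' k : ℕ, (-(((w⁻¹ : Aˣ) : A) * (W * d))) ^ k := rfl
      rw [h1]
      refine (tsum_geometric_le_of_norm_lt_one _ ht3).trans ?_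
      rw [← hO]
      have h2 : (1 - ‖-(((w⁻¹ : Aˣ) : A) * (W * d))‖)⁻¹ ≤ (1 / 2)⁻¹ :=
        inv_anti₀ (by norm_num) (by linarith)
      have h3 : ((1 : ℝ) / 2)⁻¹ = 2 := by norm_num
      linarith
  -- the new unit
  have hval : ((v * w * q : Aˣ) : A) =
      (v : A) + ((3 / 4 : ℂ) ^ n) • ((1 / 4 : ℂ) • (e m - 1)) := by
    have h1 : ((v * w * q : Aˣ) : A) = (v : A) * (w : A) + d := by
      rw [Units.val_mul, Units.val_mul, hq1, mul_add, mul_one]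
      congr 1
      calc (v : A) * (w : A) * (((w⁻¹ : Aˣ) : A) * (W * d)) =
          (v : A) * ((w : A) * ((w⁻¹ : Aˣ) : A)) * (W * d) := by simp only [mul_assoc]
        _ = ((v : A) * W) * d := by rw [Units.mul_inv, mul_one, ← mul_assoc]
        _ = d := by rw [hvW, one_mul]
    rw [h1, hw1, hdd, hs]
    simp only [mul_add, sub_mul, smul_sub, mul_smul_comm, mul_one, smul_mul_assoc, one_mul,
      smul_smul]
    module
  refine ⟨v * w * q, ?_, ?_, ?_, ?_, ?_⟩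
  · intro k
    rw [hval]
    simp only [add_mul, mul_add, smul_mul_assoc, mul_smul_comm, sub_mul, mul_sub, one_mul,
      mul_one, hv1 k, hcomm m k]
  · have h1 : ((v * w * q : Aˣ) : A) - ((3 / 4 : ℂ) ^ (n + 1)) • (1 : A) =
        s + ((3 / 4 : ℂ) ^ n * (1 / 4)) • e m := by
      rw [hval, hs, pow_succ]
      module
    rw [h1]
    have h2 : (fun k => (s + ((3 / 4 : ℂ) ^ n * (1 / 4)) • e m) * e k) =
        (fun k => s * e k + ((3 / 4 : ℂ) ^ n * (1 / 4)) • (e m * e k)) := by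
      funext k
      rw [add_mul, smul_mul_assoc]
    rw [h2]
    exact hv2.add ((hee m).const_smul _)
  · have h1 : ((v * w * q : Aˣ) : A) - ((3 / 4 : ℂ) ^ (n + 1)) • (1 : A) =
        s + ((3 / 4 : ℂ) ^ n * (1 / 4)) • e m := by
      rw [hval, hs, pow_succ]
      module
    rw [h1]
    exact Submodule.add_mem _ hv3
      (Submodule.smul_mem _ _ (Submodule.subset_span (Set.mem_range_self m)))
  · rw [hval, add_sub_cancel_left, norm_smul, norm_smul]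
    have h1 : ‖(3 / 4 : ℂ) ^ n‖ = (3 / 4) ^ n := by
      rw [norm_pow]
      norm_num
    have h2 : ‖(1 / 4 : ℂ)‖ = 1 / 4 := by norm_num
    rw [h1, h2]
    refine mul_le_mul_of_nonneg_left ?_ (by positivity)
    refine mul_le_mul_of_nonneg_left ?_ (by norm_num)
    exact (norm_sub_le _ _).trans (add_le_add (hM m) le_rfl)
  · obtain ⟨W', hW'⟩ : ∃ W' : A, W' = (((v * w * q)⁻¹ : Aˣ) : A) := ⟨_, rfl⟩
    have hvW' : ((v * w * q : Aˣ) : A) * W' = 1 := by rw [hW']; exact (v * w * q).mul_inv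
    have hW'n : ‖W'‖ ≤ B := by
      have h1 : W' = ((q⁻¹ : Aˣ) : A) * (((w⁻¹ : Aˣ) : A) * W) := by
        rw [hW', mul_inv_rev, mul_inv_rev, Units.val_mul, Units.val_mul, hW]
      rw [h1, hB]
      refine (norm_mul_le _ _).trans ?_
      refine mul_le_mul hq2 ?_ (norm_nonneg _) (by positivity)
      refine (norm_mul_le _ _).trans ?_
      exact mul_le_mul_of_nonneg_right hw2 hW0
    rw [← hW', ← hW]
    have hkey : x * W' - x * W =
        ((3 / 4 : ℂ) ^ n * (1 / 4)) • ((x - x * e m) * (W * W')) := by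
      have h1 : x * W' - x * W = x * (W * (((v : A) - ((v * w * q : Aˣ) : A)) * W')) := by
        rw [sub_mul, hvW', mul_sub, ← mul_assoc W, hWv, one_mul, mul_one, mul_sub]
      rw [h1, hval]
      have h2 : (v : A) - ((v : A) + ((3 / 4 : ℂ) ^ n) • ((1 / 4 : ℂ) • (e m - 1))) =
          ((3 / 4 : ℂ) ^ n * (1 / 4)) • (1 - e m) := by module
      rw [h2, smul_mul_assoc, mul_smul_comm, mul_smul_comm]
      congr 1
      rw [sub_mul, one_mul, mul_sub, ← mul_assoc W, hWe m, mul_assoc (e m), mul_sub,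
        sub_mul, mul_assoc x]
    rw [hkey, norm_smul]
    have h1 : ‖(3 / 4 : ℂ) ^ n * (1 / 4)‖ ≤ 1 := by
      rw [norm_mul, norm_pow]
      have h2 : ‖(3 / 4 : ℂ)‖ = 3 / 4 := by norm_num
      have h3 : ‖(1 / 4 : ℂ)‖ = 1 / 4 := by norm_num
      rw [h2, h3]
      have h4 : (3 / 4 : ℝ) ^ n ≤ 1 := pow_le_one₀ (by norm_num) (by norm_num)
      linarith
    have h5 : ‖(x - x * e m) * (W * W')‖ ≤ ‖x - x * e m‖ * (‖W‖ * B) := by
      refine (norm_mul_le _ _).trans ?_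
      refine mul_le_mul_of_nonneg_left ?_ (norm_nonneg _)
      refine (norm_mul_le _ _).trans ?_
      exact mul_le_mul_of_nonneg_left hW'n hW0
    have h6 : ‖x - x * e m‖ * (‖W‖ * B) ≤
        (1 / 2) ^ n / (‖W‖ * B + 1) * (‖W‖ * B + 1) := by
      refine mul_le_mul hm2.le (by linarith) (by positivity) (by positivity)
    have h7 : (1 / 2 : ℝ) ^ n / (‖W‖ * B + 1) * (‖W‖ * B + 1) = (1 / 2) ^ n := by
      have : ‖W‖ * B + 1 ≠ 0 := by positivity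
      field_simp
    calc ‖(3 / 4 : ℂ) ^ n * (1 / 4)‖ * ‖(x - x * e m) * (W * W')‖ ≤
        1 * ‖(x - x * e m) * (W * W')‖ := mul_le_mul_of_nonneg_right h1 (norm_nonneg _)
      _ = ‖(x - x * e m) * (W * W')‖ := one_mul _
      _ ≤ (1 / 2) ^ n := by linarith

/-- Cohen factorisation for one element and a sequence of commuting approximate units. -/
theorem cohen {A : Type*} [NormedRing A] [NormedAlgebra ℂ A] [CompleteSpace A]
    (e : ℕ → A) (hM : ∀ n, ‖e n‖ ≤ 2)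
    (hcomm : ∀ m n, e m * e n = e n * e m)
    (hee : ∀ m, Tendsto (fun n => e m * e n) atTop (𝓝 (e m)))
    (x : A) (hx : Tendsto (fun n => x * e n) atTop (𝓝 x)) :
    ∃ y b : A, x = y * b ∧
      b ∈ (Submodule.span ℂ (Set.range e)).topologicalClosure ∧
      y ∈ closure (Set.range (fun a => x * a)) := by
  classical
  -- the sequence of units
  obtain ⟨P, hP⟩ : ∃ P : ℕ → Aˣ → Prop, ∀ n v, P n v ↔
      ((∀ k, (v : A) * e k = e k * (v : A)) ∧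
      Tendsto (fun k => ((v : A) - ((3 / 4 : ℂ) ^ n) • (1 : A)) * e k) atTop
        (𝓝 ((v : A) - ((3 / 4 : ℂ) ^ n) • (1 : A))) ∧
      (v : A) - ((3 / 4 : ℂ) ^ n) • (1 : A) ∈ Submodule.span ℂ (Set.range e)) :=
    ⟨_, fun _ _ => Iff.rfl⟩
  have hstep : ∀ n (v : {v : Aˣ // P n v}), ∃ v' : {v : Aˣ // P (n + 1) v},
      ‖((v' : Aˣ) : A) - ((v : Aˣ) : A)‖ ≤ (3 / 4) ^ n * (1 / 4 * (2 + ‖(1 : A)‖)) ∧
      ‖x * (((v' : Aˣ)⁻¹ : Aˣ) : A) - x * (((v : Aˣ)⁻¹ : Aˣ) : A)‖ ≤ (1 / 2) ^ n := by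
    rintro n ⟨v, hv⟩
    obtain ⟨h1, h2, h3⟩ := (hP n v).1 hv
    obtain ⟨v', h4, h5, h6, h7, h8⟩ := cohen_step e hM hcomm hee x hx n v h1 h2 h3
    exact ⟨⟨v', (hP _ _).2 ⟨h4, h5, h6⟩⟩, h7, h8⟩
  have h0 : P 0 1 := by
    rw [hP]
    refine ⟨fun k => by simp, ?_, ?_⟩
    · simp
    · simp
  obtain ⟨f, hf⟩ : ∃ f : (n : ℕ) → {v : Aˣ // P n v}, ∀ n,
      ‖((f (n + 1) : Aˣ) : A) - ((f n : Aˣ) : A)‖ ≤ (3 / 4) ^ n * (1 / 4 * (2 + ‖(1 : A)‖)) ∧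
      ‖x * (((f (n + 1) : Aˣ)⁻¹ : Aˣ) : A) - x * (((f n : Aˣ)⁻¹ : Aˣ) : A)‖ ≤
        (1 / 2) ^ n := by
    refine ⟨fun n => Nat.rec ⟨1, h0⟩ (fun n v => (hstep n v).choose) n, fun n => ?_⟩
    exact (hstep n _).choose_spec
  -- the limits
  obtain ⟨b, hb⟩ : ∃ b : A, Tendsto (fun n => ((f n : Aˣ) : A)) atTop (𝓝 b) := by
    apply cauchySeq_tendsto_of_complete
    refine cauchySeq_of_dist_le_of_summable
      (fun n => (3 / 4 : ℝ) ^ n * (1 / 4 * (2 + ‖(1 : A)‖))) (fun n => ?_) ?_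
    · rw [dist_comm, dist_eq_norm]
      exact (hf n).1
    · exact (summable_geometric_of_lt_one (by norm_num) (by norm_num)).mul_right _
  obtain ⟨y, hy⟩ : ∃ y : A, Tendsto (fun n => x * (((f n : Aˣ)⁻¹ : Aˣ) : A)) atTop (𝓝 y) := by
    apply cauchySeq_tendsto_of_complete
    refine cauchySeq_of_dist_le_of_summable (fun n => (1 / 2 : ℝ) ^ n) (fun n => ?_) ?_
    · rw [dist_comm, dist_eq_norm]
      exact (hf n).2
    · exact summable_geometric_of_lt_one (by norm_num) (by norm_num)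
  refine ⟨y, b, ?_, ?_, ?_⟩
  · have h1 : Tendsto (fun n => x * (((f n : Aˣ)⁻¹ : Aˣ) : A) * ((f n : Aˣ) : A)) atTop
        (𝓝 (y * b)) := hy.mul hb
    have h2 : (fun n => x * (((f n : Aˣ)⁻¹ : Aˣ) : A) * ((f n : Aˣ) : A)) = fun _ => x := by
      funext n
      rw [mul_assoc, Units.inv_mul, mul_one]
    rw [h2] at h1
    exact tendsto_nhds_unique tendsto_const_nhds h1
  · have h1 : Tendsto (fun n => ((f n : Aˣ) : A) - ((3 / 4 : ℂ) ^ n) • (1 : A)) atTop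
        (𝓝 (b - (0 : ℂ) • (1 : A))) := by
      refine hb.sub (Tendsto.smul_const ?_ _)
      refine tendsto_pow_atTop_nhds_zero_of_norm_lt_one ?_
      norm_num
    rw [zero_smul, sub_zero] at h1
    show b ∈ closure _
    refine mem_closure_of_tendsto h1 (Eventually.of_forall (fun n => ?_))
    exact ((hP n _).1 (f n).2).2.2
  · refine mem_closure_of_tendsto hy (Eventually.of_forall (fun n => ?_))
    exact ⟨_, rfl⟩

end Pool.Agent.H69.C2
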